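import Pool.Agent.Results.MP_a12702_lc.FiniteOrderGuards
import Pool.Agent.Results.MP_a12702_lc.OneEquationQuantifiers
import Pool.Agent.L5helper75.QC.NotCH
import Pool.Agent.R158.MM.Close

/-!
# Quasiminimality with arbitrary countable connectives, and the continuum hypothesis

Quasiminimality of `ℂ_exp` is a statement about ALL sets which are invariant under automorphisms; such
a set is a union of types, and the union need not be a Borel set. The starting results on definable
sets use countable Boolean combinations. Here they are replaced by ARBITRARY countable propositional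
connectives: for a sequence `X₀, X₁, …` of relations of the family and an arbitrary class `W` of sets
of indices, the relation `{i | X_i(s)} ∈ W` is in the family. For example `W` can be the class of all
sets of finite sequences which contain a branch (this is the operation of Souslin), a nonprincipal
ultrafilter, or the class of winning positions of an infinite game; in other words, if `L` is a
countable set of formulas, then the family contains every union of `L`-types, however complicated the
set of types.

* The guarded quantifiers of the starting results `FiniteOrderGuards` and `OneEquationQuantifiers`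
  can be applied to all relations of the family.
* The unguarded quantifiers 'for at least `κ` numbers' (`κ` uncountable) and the quantifiers of
  slender σ-ideals (for example 'for all `y` outside of a meagre set', `y` in a Polish space, 'for
  almost all `y`') can be applied to arbitrary connectives of Borel relations of the family, and the
  quantifiers of Magidor and Malitz and integrals to Borel relations of the family.

All sets of complex numbers in the least closed family are countable or cocountable.

Part (3) concerns the restriction to Borel relations for the unguarded quantifier. It is superfluous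
if and only if the continuum hypothesis fails: the class of ALL relations whose traces on analytic
curves are countable or cocountable (in every family to which (1) applies all relations are in this
class) is closed under the quantifier 'for uncountably many numbers' if and only if `2^ℵ₀ ≠ ℵ₁`.
Under the continuum hypothesis the counterexample is a relation of Sierpiński's type: the plane is the
union of a chain of countable sets of length `ω₁` which are eventually closed under each analytic
function and under its inverse.
-/

set_option autoImplicit false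

namespace Pool.Agent.Results.MP_a12702_lc.ArbitraryConnectives

open Set Function Cardinal MeasureTheory Pool.Agent.TH735.QM Pool.Agent.L5helper75.QC
open scoped ENNReal

/-- Closure conditions on families `𝒟 m` of subsets of `ℂ^m`: those of the starting results
`FiniteOrderGuards` and `OneEquationQuantifiers` (zero sets of entire functions, complements,
countable unions, preimages under entire maps, guarded quantifiers) and the following ones. -/
structure ClosedConn (𝒟 : (m : ℕ) → Set (Set (Fin m → ℂ))) : Prop extends
    toGuards : FiniteOrderGuards.Closed 𝒟, toEquations : OneEquationQuantifiers.Closed 𝒟 where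
  /-- arbitrary countable propositional connectives `W` -/
  connective : ∀ (m : ℕ) (X : ℕ → Set (Fin m → ℂ)), (∀ i, X i ∈ 𝒟 m) → ∀ W : Set (Set ℕ),
    {s | {i | s ∈ X i} ∈ W} ∈ 𝒟 m
  /-- the unguarded quantifier 'for at least `κ` numbers `x`', `κ` uncountable, for connectives of
  Borel relations of the family -/
  generic : ∀ (m : ℕ) (X : ℕ → Set (Fin (m + 1) → ℂ)), (∀ i, X i ∈ 𝒟 (m + 1)) →
    (∀ i, MeasurableSet (X i)) → ∀ (W : Set (Set ℕ)) (κ : Cardinal.{0}), ℵ₀ < κ →
    {s | κ ≤ #({x : ℂ | {i | (Fin.snoc (α := fun _ => ℂ) s x : Fin (m + 1) → ℂ) ∈ X i} ∈ W} :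
      Set ℂ)} ∈ 𝒟 m
  /-- the quantifiers of slender σ-ideals over a standard Borel space `Y`, for connectives of Borel
  relations whose sections are in the family; `P` is a class of subsets of `Y` which is invariant
  under changes by elements of the σ-ideal `I` -/
  ideal : ∀ (m : ℕ) (Y : Type) [MeasurableSpace Y] [StandardBorelSpace Y] (I P : Set (Set Y)),
    IsSigmaIdeal I → Slender I → (∀ A B : Set Y, symmDiff A B ∈ I → A ∈ P → B ∈ P) →
    ∀ X : ℕ → Set ((Fin m → ℂ) × Y), (∀ i, MeasurableSet (X i)) →
      (∀ i y, {s | (s, y) ∈ X i} ∈ 𝒟 m) → ∀ W : Set (Set ℕ),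
      {s | {y | {i | (s, y) ∈ X i} ∈ W} ∈ P} ∈ 𝒟 m
  /-- the quantifiers of Magidor and Malitz for Borel relations of the family -/
  homogeneous : ∀ (m : ℕ) (X : (k : ℕ) → (Fin k → ℕ) → Set (Fin (m + k) → ℂ)),
    (∀ k c, X k c ∈ 𝒟 (m + k)) → (∀ k c, MeasurableSet (X k c)) →
    ∀ κ : ℕ → Cardinal.{0}, (∀ n, ℵ₀ < κ n) →
    {s | ∃ H : ℕ → Set ℂ, (∀ n, κ n ≤ #(H n)) ∧
      ∀ (k : ℕ) (c : Fin k → ℕ) (x : Fin k → ℂ), Injective x → (∀ i, x i ∈ H (c i)) →
        (Fin.append s x : Fin (m + k) → ℂ) ∈ X k c} ∈ 𝒟 m
  /-- integrals over parameters, for jointly measurable functions -/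
  integral : ∀ (m : ℕ) (Y : Type) [MeasurableSpace Y] (μ : Measure Y) [SFinite μ]
    (φ : (Fin m → ℂ) → Y → ℝ≥0∞), Measurable (fun p : (Fin m → ℂ) × Y => φ p.1 p.2) →
    (∀ (y : Y) (r : ℝ≥0∞), {s | r < φ s y} ∈ 𝒟 m) →
    ∀ r : ℝ≥0∞, {s | r < ∫⁻ y, φ s y ∂μ} ∈ 𝒟 m

theorem closed_CQ : ClosedConn (fun m => {X | CQ m X}) :=
  { FiniteOrderGuards.closed_CQ, OneEquationQuantifiers.closed_CQ with
    connective := fun _ _ hX W => CQ.connective hX W
    generic := fun _ _ hX hXm W _ hκ => CQ.generic_conn hX hXm W hκ
    ideal := fun _ _ _ _ _ _ hI hIs hP _ hX h W => CQ.slender_conn hI hIs hP hX h W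
    homogeneous := fun _ _ hX hXm _ hκ =>
      (Pool.Agent.R158.MM.BC.mm (fun k c => ⟨hX k c, hXm k c⟩) hκ).1
    integral := fun _ _ _ μ _ φ hφ h r =>
      (Pool.Agent.R158.MM.BC.integral μ φ hφ (fun y q => h y q) r).1 }

/-- (1) The sets in the least closed family have countable or cocountable traces on all analytic
curves; (2) every set of complex numbers in the least closed family is countable or cocountable;
(3) the class of all relations with countable or cocountable traces on all analytic curves is closed
under the quantifier 'for uncountably many numbers' if and only if the continuum hypothesis fails. -/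
theorem result :
    (∀ (m : ℕ) (X : Set (Fin m → ℂ)),
      (∀ 𝒟 : (m : ℕ) → Set (Set (Fin m → ℂ)), ClosedConn 𝒟 → X ∈ 𝒟 m) →
      ∀ U : Set ℂ, IsOpen U → IsPreconnected U →
        ∀ γ : ℂ → (Fin m → ℂ), AnalyticOnNhd ℂ γ U →
          {t | t ∈ U ∧ γ t ∈ X}.Countable ∨ {t | t ∈ U ∧ γ t ∉ X}.Countable) ∧
    (∀ X : Set ℂ,
      (∀ 𝒟 : (m : ℕ) → Set (Set (Fin m → ℂ)), ClosedConn 𝒟 →
        {v : Fin 1 → ℂ | v 0 ∈ X} ∈ 𝒟 1) →
      X.Countable ∨ Xᶜ.Countable) ∧
    ((∀ (m : ℕ) (X : Set (Fin (m + 1) → ℂ)),
      (∀ U : Set ℂ, IsOpen U → IsPreconnected U →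
        ∀ γ : ℂ → (Fin (m + 1) → ℂ), AnalyticOnNhd ℂ γ U →
          {t | t ∈ U ∧ γ t ∈ X}.Countable ∨ {t | t ∈ U ∧ γ t ∉ X}.Countable) →
      ∀ U : Set ℂ, IsOpen U → IsPreconnected U →
        ∀ γ : ℂ → (Fin m → ℂ), AnalyticOnNhd ℂ γ U →
          {t | t ∈ U ∧ ¬ {x : ℂ | (Fin.snoc (γ t) x : Fin (m + 1) → ℂ) ∈ X}.Countable}.Countable ∨
          {t | t ∈ U ∧ {x : ℂ | (Fin.snoc (γ t) x : Fin (m + 1) → ℂ) ∈ X}.Countable}.Countable) ↔
      ¬ (𝔠 : Cardinal.{0}) = ℵ₁) := by
  refine ⟨?_, ?_, ?_⟩
  · intro m X hX
    have h1 : CQ m X := hX _ closed_CQ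
    exact h1
  · intro X hX
    have h1 : CQ 1 {v : Fin 1 → ℂ | v 0 ∈ X} := hX _ closed_CQ
    exact h1.qm
  · refine Iff.trans ?_ elim_iff
    refine forall_congr' fun m => forall_congr' fun X => ?_
    refine imp_congr Iff.rfl ?_
    refine forall_congr' fun U => imp_congr Iff.rfl (imp_congr Iff.rfl ?_)
    refine forall_congr' fun γ => imp_congr Iff.rfl ?_
    refine or_congr Iff.rfl ?_
    have e : U \ γ ⁻¹' {s | ¬ (Pool.Agent.Y566.GQ.Sec X s).Countable} =
        {t | t ∈ U ∧ {x : ℂ | (Fin.snoc (γ t) x : Fin (m + 1) → ℂ) ∈ X}.Countable} := by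
      ext t
      constructor
      · rintro ⟨h1, h2⟩
        refine ⟨h1, ?_⟩
        by_contra h3
        exact h2 h3
      · rintro ⟨h1, h2⟩
        exact ⟨h1, fun h3 => h3 h2⟩
    rw [e]

end Pool.Agent.Results.MP_a12702_lc.ArbitraryConnectives
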