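import Pool.Agent.Results.MP_a12702_lc.MagidorMalitz
import Pool.Agent.L5helper75.QC.Slender

/-!
# Quasiminimality of the complex numbers with the quantifiers of σ-ideals

The starting result `MagidorMalitz` shows that the sets of complex numbers in the least family which
contains the zero sets of entire functions and is closed under countable Boolean combinations,
preimages under entire maps, several guarded quantifiers, the quantifiers 'for uncountably many', the
quantifiers of Magidor and Malitz, and integrals `∫ φ(s, y) dμ(y)` over arbitrary parameter spaces, are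
countable or cocountable.

Here we add QUANTIFIERS OF σ-IDEALS over arbitrary standard Borel parameter spaces `Y`: 'for almost all
`y ∈ Y` in the sense of the σ-ideal `I`', and more generally every property of the set
`X_s = {y | X(s, y)}` which depends only on the class of `X_s` modulo `I`. The ideal can be any σ-ideal
which is *slender*: Borel functions `g : Y → ℂ` have at most countably many fibres outside of `I`.
All σ-ideals with the countable chain condition are slender: the meagre sets of a Polish space, the
null sets of a measure, the sets which are meagre in almost all sections, etc. The relation `X` is an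
arbitrary Borel set such that for every fixed `y` the set `{s | X(s, y)}` is in the family. For
example, `Y` can be the Polish space of all entire functions and `X(s, f)` a condition on
`s, f(s), f'(s), …`: then `{s | X(s, f) for a generic entire function f}` is in the family. For the
category quantifier over Polish spaces no hypothesis of measurability on the result is needed.

Part (3) says that the class of slender ideals is the largest possible one: the quantifier of a σ-ideal
`I` leads from Borel sets with countable or cocountable sections to countable or cocountable sets if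
and only if `I` is slender.

The proof: by the theorem of Lusin and Novikov the set of all exceptions is a countable union of graphs
of Borel functions of `y`, so that it suffices to avoid their large fibres
(`Pool.Agent.L5helper75.QC.core`).
-/

set_option autoImplicit false

namespace Pool.Agent.Results.MP_a12702_lc.IdealQuantifiers

open Set Function Cardinal MeasureTheory Pool.Agent.TH735.QM Pool.Agent.L5helper75.QC
open scoped ENNReal

/-- Closure conditions on families `𝒟 m` of subsets of `ℂ^m`: those of the starting result
`MagidorMalitz` and two further ones. -/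
structure ClosedIdeal (𝒟 : (m : ℕ) → Set (Set (Fin m → ℂ))) : Prop extends
    MagidorMalitz.ClosedMM 𝒟 where
  /-- the quantifiers of slender σ-ideals: `P` is a class of subsets of the standard Borel space `Y`
  which is invariant under changes by elements of the σ-ideal `I` -/
  ideal : ∀ (m : ℕ) (Y : Type) [MeasurableSpace Y] [StandardBorelSpace Y] (I P : Set (Set Y)),
    IsSigmaIdeal I → Slender I → (∀ A B : Set Y, symmDiff A B ∈ I → A ∈ P → B ∈ P) →
    ∀ X : Set ((Fin m → ℂ) × Y), MeasurableSet X → (∀ y, {s | (s, y) ∈ X} ∈ 𝒟 m) →
      MeasurableSet {s | {y | (s, y) ∈ X} ∈ P} → {s | {y | (s, y) ∈ X} ∈ P} ∈ 𝒟 m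
  /-- the category quantifier over an arbitrary Polish space `Y` -/
  category : ∀ (m : ℕ) (Y : Type) [TopologicalSpace Y] [PolishSpace Y] [MeasurableSpace Y]
    [BorelSpace Y], ∀ X : Set ((Fin m → ℂ) × Y), MeasurableSet X →
      (∀ y, {s | (s, y) ∈ X} ∈ 𝒟 m) → {s | IsMeagre {y | (s, y) ∈ X}} ∈ 𝒟 m

theorem closed_BC : ClosedIdeal (fun m => {X | CQ m X ∧ MeasurableSet X}) :=
  { MagidorMalitz.closed_BC with
    ideal := fun m Y _ _ I P hI hIs hP X hX h hm => ⟨CQ.slender hI hIs hP hX fun y => (h y).1, hm⟩
    category := by
      intro m Y _ _ _ _ X hX h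
      refine ⟨?_, meas_meagre hX⟩
      refine CQ.slender (I := {A : Set Y | IsMeagre A}) (P := {A : Set Y | IsMeagre A})
        isCcc_meagre.sigma isCcc_meagre.slender ?_ hX fun y => (h y).1
      intro A B hAB hA
      refine (hA.union hAB).mono ?_
      intro y hy
      by_cases h1 : y ∈ A
      · exact Or.inl h1
      · exact Or.inr ((Set.mem_symmDiff).2 (Or.inr ⟨hy, h1⟩)) }

/-- (1) The sets in the least closed family are Borel sets with countable or cocountable traces on
all analytic curves; (2) every set of complex numbers in the least closed family is countable or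
cocountable; (3) for a σ-ideal `I` on a standard Borel space `Y`, all Borel sets `X ⊆ ℂ × Y` with
countable or cocountable sections `{t | (t, y) ∈ X}` lead to a countable or cocountable set of all `t`
with `X_t ∈ I` if and only if `I` is slender; (4) σ-ideals with the countable chain condition are
slender. -/
theorem result :
    (∀ (m : ℕ) (X : Set (Fin m → ℂ)),
      (∀ 𝒟 : (m : ℕ) → Set (Set (Fin m → ℂ)), ClosedIdeal 𝒟 → X ∈ 𝒟 m) →
      MeasurableSet X ∧ ∀ U : Set ℂ, IsOpen U → IsPreconnected U →
        ∀ γ : ℂ → (Fin m → ℂ), AnalyticOnNhd ℂ γ U →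
          {t | t ∈ U ∧ γ t ∈ X}.Countable ∨ {t | t ∈ U ∧ γ t ∉ X}.Countable) ∧
    (∀ X : Set ℂ,
      (∀ 𝒟 : (m : ℕ) → Set (Set (Fin m → ℂ)), ClosedIdeal 𝒟 →
        {v : Fin 1 → ℂ | v 0 ∈ X} ∈ 𝒟 1) →
      X.Countable ∨ Xᶜ.Countable) ∧
    (∀ (Y : Type) [MeasurableSpace Y] [StandardBorelSpace Y] (I : Set (Set Y)), IsSigmaIdeal I →
      ((∀ X : Set (ℂ × Y), MeasurableSet X →
        (∀ y, {t | (t, y) ∈ X}.Countable ∨ {t | (t, y) ∉ X}.Countable) →
        {t | {y | (t, y) ∈ X} ∈ I}.Countable ∨ {t | {y | (t, y) ∈ X} ∉ I}.Countable) ↔
      Slender I)) ∧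
    ∀ (Y : Type) [MeasurableSpace Y] (I : Set (Set Y)), IsSigmaIdeal I →
      (∀ 𝒜 : Set (Set Y), (∀ A ∈ 𝒜, MeasurableSet A ∧ A ∉ I) → 𝒜.Pairwise Disjoint →
        𝒜.Countable) → Slender I := by
  refine ⟨?_, ?_, ?_, ?_⟩
  · intro m X hX
    have h1 : CQ m X ∧ MeasurableSet X := hX _ closed_BC
    exact ⟨h1.2, h1.1⟩
  · intro X hX
    have h1 : CQ 1 {v : Fin 1 → ℂ | v 0 ∈ X} ∧ MeasurableSet {v : Fin 1 → ℂ | v 0 ∈ X} :=
      hX _ closed_BC
    exact h1.1.qm
  · intro Y _ _ I hI
    exact (slender_iff hI).symm
  · intro Y _ I hI hccc
    exact IsCcc.slender ⟨hI.empty, hI.mono, hI.iUnion, hccc⟩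

end Pool.Agent.Results.MP_a12702_lc.IdealQuantifiers
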