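import Pool.Agent.Results.MP_a12702_lc.MagidorMalitz
import Pool.Agent.L5helper53.TL.Rule2

/-!
# Quasiminimality of the complex numbers with quantifiers guarded by equations of infinite order

In the starting results `FiniteOrderGuards`, `GenericQuantifiers` and `MagidorMalitz` the quantifiers
over the zeros `x` of an equation `F(s, x) = 0` are restricted to functions `F` of FINITE ORDER in `x`,
such as the exponential polynomials `P(s, x, e^x)`. Here the guards are equations of infinite order:
`F(s, x)` can be an arbitrary finite sum of terms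

`x ^ e * exp (Q (h(s) x)) * c(s, exp (h(s) x))`

with an entire function `h`, polynomials `Q` in `y`, `e^y`, `e^{-y}`, and functions `c(s, w)` which are
analytic for `w ≠ 0` and of finite order in `w` and `1 / w`, for example all
`P(s, x, e^x, e^{-x}, e^{p(s, e^x)}, e^{q(s, e^{-x})})` with polynomials `P`, `p`, `q`, and all
`P(s, x, e^x, e^{x^2}, e^{x e^x}, e^{e^x})`. The matrix of the quantifier at the zeros is an arbitrary
set of the family, so that the quantifiers can be iterated. The family is closed under all the
operations of `MagidorMalitz`, too.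

Proof. As before one counts the zeros of `f(t, x) = F(γ(t), x)` which lie on branches for which the
matrix is true. For functions of finite order the power sums of the inverses of the zeros are
analytic in `t`, and their Hankel determinants detect the number of zeros. Here the number of zeros
grows exponentially and no such sum converges. But the zeros stay away from the points
`x₀ + 2 π i k`, uniformly in `k` and for all `t` near a generic `t₀`
(`Pool.Agent.L5helper53.TL.exists_VZ`), and hence the images of the zeros under the function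
`x ↦ x (e^x + e^{-x} - 2)`, translated by a generic `x₀`, are bounded away from `0`, discrete, and of
polynomial growth (`Pool.Agent.L5helper53.TL.count_strip`); they move analytically with `t`
(`Pool.Agent.L5helper53.TL.push_dv`), and for a dense set of `t` the zeros are separated by the function
(`Pool.Agent.L5helper53.TL.count_generic_push`).
-/

set_option autoImplicit false

namespace Pool.Agent.Results.MP_a12702_lc.TwoLevelGuards

open Set Cardinal Pool.Agent.TH735.QM Pool.Agent.TH735.FO Pool.Agent.L5helper53.TL

/-- Closure conditions on families `𝒟 m` of subsets of `ℂ^m`: those of the starting result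
`MagidorMalitz` and a further one. -/
structure ClosedTL (𝒟 : (m : ℕ) → Set (Set (Fin m → ℂ))) : Prop extends
    MagidorMalitz.ClosedMM 𝒟 where
  /-- the quantifier guarded by a two-level exponential equation: there are at least `κ` numbers `x`
  such that ..., where the matrix is an arbitrary set of the family at the zeros `x` of `F(s, ·)`, and
  is a countable Boolean combination of conditions `s ∈ E` and `x ∈ D` at the other `x` -/
  guard₂ : ∀ (m : ℕ) (F : (Fin m → ℂ) → ℂ → ℂ), TwoLevel F →
    ∀ X ∈ 𝒟 (m + 1), ∀ R : Set ((Fin m → ℂ) × (Fin 1 → ℂ)),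
      Rect (· ∈ 𝒟 m) (· ∈ 𝒟 1) R → ∀ κ : Cardinal.{0},
    {s | κ ≤ #({x : ℂ | (IsZero F s x ∧
      (Fin.snoc (α := fun _ => ℂ) s x : Fin (m + 1) → ℂ) ∈ X) ∨
      (¬ IsZero F s x ∧ (s, fun _ => x) ∈ R)} : Set ℂ)} ∈ 𝒟 m

theorem closed_BC : ClosedTL (fun m => {X | CQ m X ∧ MeasurableSet X}) :=
  { MagidorMalitz.closed_BC with
    guard₂ := by
      intro m F hF X hX R hR κ
      exact ⟨CQ_guard (Grd.of_twoLevel hF) hX.1 (fun E hE => hE.1) (fun D hD => hD.1) hR κ,
        Pool.Agent.Y566.GQ.meas_guard hF.an hX.2 (fun E hE => hE.2) (fun D hD => hD) hR κ⟩ }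

/-- The sets in the least closed family are Borel sets with countable or cocountable traces on all
analytic curves; in particular every set of complex numbers in the least closed family is countable
or cocountable. -/
theorem result :
    (∀ (m : ℕ) (X : Set (Fin m → ℂ)),
      (∀ 𝒟 : (m : ℕ) → Set (Set (Fin m → ℂ)), ClosedTL 𝒟 → X ∈ 𝒟 m) →
      MeasurableSet X ∧ ∀ U : Set ℂ, IsOpen U → IsPreconnected U →
        ∀ γ : ℂ → (Fin m → ℂ), AnalyticOnNhd ℂ γ U →
          {t | t ∈ U ∧ γ t ∈ X}.Countable ∨ {t | t ∈ U ∧ γ t ∉ X}.Countable) ∧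
    ∀ X : Set ℂ,
      (∀ 𝒟 : (m : ℕ) → Set (Set (Fin m → ℂ)), ClosedTL 𝒟 → {v : Fin 1 → ℂ | v 0 ∈ X} ∈ 𝒟 1) →
      X.Countable ∨ Xᶜ.Countable := by
  refine ⟨?_, ?_⟩
  · intro m X hX
    have h1 : CQ m X ∧ MeasurableSet X := hX _ closed_BC
    exact ⟨h1.2, h1.1⟩
  · intro X hX
    have h1 : CQ 1 {v : Fin 1 → ℂ | v 0 ∈ X} ∧ MeasurableSet {v : Fin 1 → ℂ | v 0 ∈ X} :=
      hX _ closed_BC
    exact h1.1.qm

end Pool.Agent.Results.MP_a12702_lc.TwoLevelGuards
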