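import Pool.Agent.Results.MP_a12702_lc.LocalReducts
import Pool.Agent.L5helper53.TL.Blocks

/-!
Quasiminimality, in the sense of the problem (automorphisms), of the structures on `ℂ` obtained
from arbitrary curve-regular relations by restriction to blocks, where the blocks are given by
equations of INFINITE order.

`Cl F S` is the closure of the set `S` of complex numbers under solving the equations
`F k y z = 0` in the unknown `z`, where `y` is a tuple of elements of the closure
and `F k y` is not identically zero. In the starting result `LocalReducts` all the functions `F k y`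
are of finite order, so that the closures contain the solutions `z` of equations
`P(y, e^y, z, e^z) = 0` only. Here every `F k` can also be a two-level exponential function (see the
new result `TwoLevelGuards`): if the `F k` are all functions `P(y, e^y, e^(e^y), z, e^z, e^(e^z))` with
integer polynomials `P`, then `Cl F S` is an algebraically closed exponential subfield of `ℂ` which
contains all logarithms of its nonzero elements and all solutions of nontrivial equations
`P(z, e^z, e^(e^z)) = 0` over it, all pairs `(x, y)` with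
`P(x, y, e^x, e^y, e^(e^x), e^(e^y)) = 0` for some nonzero integer polynomial `P` are blocked, and the
automorphisms below respect all these relations.
-/

set_option autoImplicit false

namespace Pool.Agent.Results.MP_a12702_lc.TwoLevelReducts

open Set Pool.Agent.TH735.QM Pool.Agent.TH735.FO Pool.Agent.TH735.BF Pool.Agent.L5helper53.TL

theorem result (m : ℕ → ℕ) (F : (k : ℕ) → (Fin (m k) → ℂ) → ℂ → ℂ)
    (hF : ∀ k, (AnalyticOnNhd ℂ (fun p : (Fin (m k) → ℂ) × ℂ => F k p.1 p.2) univ ∧
      FiniteOrder (F k)) ∨ TwoLevel (F k))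
    (n : ℕ → ℕ) (R : (j : ℕ) → Set (Fin (n j) → ℂ)) (hR : ∀ j, CQ (n j) (R j))
    (A : Set ℂ) (hA : A.Countable) :
    (∃ B : Set ℂ, B.Countable ∧ ∀ t t', t ∉ B → t' ∉ B →
      ∃ σ : Equiv.Perm ℂ, LocalReducts.IsAut F R A σ ∧ σ t = t') ∧
    ∀ X : Set ℂ, (∀ σ : Equiv.Perm ℂ, LocalReducts.IsAut F R A σ → σ '' X = X) →
      X.Countable ∨ Xᶜ.Countable := by
  have hG : ∀ k, Grd (F k) := fun k => (hF k).elim (fun h => Grd.of_finiteOrder h.1 h.2)
    Grd.of_twoLevel
  have h : ∃ B : Set ℂ, B.Countable ∧ ∀ t t', t ∉ B → t' ∉ B →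
      ∃ σ : Equiv.Perm ℂ, LocalReducts.IsAut F R A σ ∧ σ t = t' := by
    obtain ⟨B, hB, h⟩ := blocked_autoH hG hR hA
    refine ⟨B, hB, fun t t' ht ht' => ?_⟩
    obtain ⟨σ, h1, h2, h3, h4⟩ := h t t' ht ht'
    exact ⟨σ, ⟨h1, h3, h4⟩, h2⟩
  refine ⟨h, ?_⟩
  intro X hX
  obtain ⟨B, hB, h⟩ := h
  by_contra hcon
  push Not at hcon
  obtain ⟨t, ht, htB⟩ := nonempty_of_not_countable (not_countable_sdiff hcon.1 hB)
  obtain ⟨t', ht', htB'⟩ := nonempty_of_not_countable (not_countable_sdiff hcon.2 hB)
  obtain ⟨σ, hσ, hσt⟩ := h t t' htB htB'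
  apply ht'
  rw [← hX σ hσ, ← hσt]
  exact mem_image_of_mem σ ht

end Pool.Agent.Results.MP_a12702_lc.TwoLevelReducts
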